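import Pool.Agent.COV.StmtsB

set_option autoImplicit false

namespace Pool.Agent.COV.H97

open Polynomial Pool.Agent.KDT.Z Pool.Agent.COV

theorem pair_fin {F : Type} [Field F] {f : F[X]} {J : Type} [AddCommGroup J] {th : Pt f → J}
    {cl : (Fin 4 → F) → J} (H : JG f J th cl) (x p r : J) (hpr : p ≠ r) :
    {h : J | Tht th (x + (h + p)) ∧ Tht th (x + (h + r))}.Finite := by
  have h2 : {h : J | ∃ z w : Pt f, th z + th w = p - r ∧ h = th z - x - p}.Finite := by
    by_cases hex : ∃ z0 w0 : Pt f, th z0 + th w0 = p - r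
    · obtain ⟨z0, w0, h0⟩ := hex
      refine Set.Finite.subset (Set.toFinite {th z0 - x - p, th w0 - x - p}) ?_
      rintro h ⟨z, w, hzw, rfl⟩
      have hne : th z + th w ≠ 0 := by
        rw [hzw]; exact sub_ne_zero.2 hpr
      rcases H.th_pair z w z0 w0 (hzw.trans h0.symm) hne with ⟨e, -⟩ | ⟨e, -⟩
      · rw [e]; exact Or.inl rfl
      · rw [e]; exact Or.inr rfl
    · refine Set.Finite.subset Set.finite_empty ?_
      rintro h ⟨z, w, hzw, -⟩
      exact hex ⟨z, w, hzw⟩
  refine Set.Finite.subset (Set.Finite.union (Set.toFinite {-x - p, -x - r}) h2) ?_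
  rintro h ⟨ha, hb⟩
  rcases ha with ha | ⟨z, hz⟩
  · left; left
    have : h = (x + (h + p)) - x - p := by abel
    rw [this, ha]; abel
  · rcases hb with hb | ⟨w, hw⟩
    · left; right
      have : h = (x + (h + r)) - x - r := by abel
      rw [Set.mem_singleton_iff, this, hb]; abel
    · right
      refine ⟨z, w.neg, ?_, ?_⟩
      · rw [H.th_neg, ← hz, ← hw]; abel
      · rw [← hz]; abel

theorem igd : IgdStmt := by
  intro F _ f J _ th cl H H0 hinf C
  by_contra hcon
  rw [Set.not_infinite] at hcon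
  set S : Set J := {h : J | h ∈ H0 ∧ ∀ x ∈ C, ¬ Tht th (x + h)} with hS
  obtain ⟨D, hD0, hDc⟩ := hinf.exists_subset_card_eq (C.card + 1)
  apply hinf
  have hfin1 : (⋃ a ∈ D, (fun s => s - a) '' S).Finite :=
    Set.Finite.biUnion (Finset.finite_toSet D) (fun a _ => hcon.image _)
  have hfin2 : (⋃ a ∈ D, ⋃ b ∈ D, ⋃ x ∈ C,
      {h : J | a ≠ b ∧ Tht th (x + (h + a)) ∧ Tht th (x + (h + b))}).Finite := by
    refine Set.Finite.biUnion (Finset.finite_toSet D) (fun a _ => ?_)
    refine Set.Finite.biUnion (Finset.finite_toSet D) (fun b _ => ?_)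
    refine Set.Finite.biUnion (Finset.finite_toSet C) (fun x _ => ?_)
    by_cases hab : a = b
    · refine Set.Finite.subset Set.finite_empty ?_
      rintro h ⟨h1, -⟩
      exact absurd hab h1
    · refine Set.Finite.subset (pair_fin H x a b hab) ?_
      rintro h ⟨-, h1⟩
      exact h1
  refine Set.Finite.subset (Set.Finite.union hfin1 hfin2) ?_
  intro h hh
  by_cases hbad : ∃ a ∈ D, h + a ∈ S
  · left
    obtain ⟨a, ha, hs⟩ := hbad
    simp only [Set.mem_iUnion, exists_prop]
    exact ⟨a, ha, h + a, hs, by simp⟩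
  · right
    have hx : ∀ a ∈ D, ∃ x ∈ C, Tht th (x + (h + a)) := by
      intro a ha
      by_contra hno
      apply hbad
      refine ⟨a, ha, H0.add_mem hh (hD0 ha), ?_⟩
      intro x hx ht
      exact hno ⟨x, hx, ht⟩
    classical
    choose! φ hφ1 hφ2 using hx
    obtain ⟨a, ha, b, hb, hab, he⟩ := Finset.exists_ne_map_eq_of_card_lt_of_maps_to
      (s := D) (t := C) (f := φ) (by omega) (fun a ha => hφ1 a ha)
    simp only [Set.mem_iUnion, exists_prop]
    exact ⟨a, ha, b, hb, φ a, hφ1 a ha, hab, hφ2 a ha, by rw [he]; exact hφ2 b hb⟩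

end Pool.Agent.COV.H97
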